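import Pool.Agent.Work.MP_8e29f8_al.Defs
import Pool.Agent.Work.MP_8e29f8_al.Proof

namespace Pool.Agent.Results.MP_8e29f8_al.Counterexample

open Pool.Agent.Work.MP_8e29f8_al

/-- There are a finite group `G` and normal subgroups `A`, `B` with `G = AB` (neither containing
the other) such that the edge set of the undirected Sylow graph of `G` differs from the union of
the edge sets of the undirected Sylow graphs of `A` and `B`. -/
theorem result :
    ∃ (G : Type) (_ : Group G) (_ : Finite G) (A B : Subgroup G),
      A.Normal ∧ B.Normal ∧ (∀ g : G, ∃ a ∈ A, ∃ b ∈ B, g = a * b) ∧ ¬ A ≤ B ∧ ¬ B ≤ A ∧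
      (undirectedSylowGraph G).edgeSet ≠
        (undirectedSylowGraph A).edgeSet ∪ (undirectedSylowGraph B).edgeSet :=
  main

end Pool.Agent.Results.MP_8e29f8_al.Counterexample
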